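import Mathlib
import Pool.Agent.Helper379.SqDistF2

set_option autoImplicit false

open MeasureTheory

namespace Pool.Agent.Results.MP_9736d0_an.BallAsymptotics

/-- `Q (r₁, …, rₙ) = ∏_{k < j} |r_j - r_k|²` for points of `ℝ³`. -/
noncomputable def Q {n : ℕ} (r : Fin n → EuclideanSpace ℝ (Fin 3)) : ℝ :=
  ∏ k : Fin n, ∏ j ∈ Finset.Ioi k, ‖r j - r k‖ ^ 2

/-- `F₂(n, 2)`: the integral of `Q` over `n` points of the unit sphere of `ℝ³`, with respect to the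
unnormalised surface measure. -/
noncomputable def F2 (n : ℕ) : ℝ :=
  ∫ w : Fin n → Metric.sphere (0 : EuclideanSpace ℝ (Fin 3)) 1,
    Q (fun i => (w i : EuclideanSpace ℝ (Fin 3)))
    ∂(Measure.pi fun _ => (volume : Measure (EuclideanSpace ℝ (Fin 3))).toSphere)

/-- `F₃(n, 3)`: the integral of `Q` over `n` points of the closed unit ball of `ℝ³`. -/
noncomputable def F3 (n : ℕ) : ℝ :=
  ∫ r in {r : Fin n → EuclideanSpace ℝ (Fin 3) | ∀ i, ‖r i‖ ≤ 1}, Q r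

/-- `(n + 2)^{-n} F₂(n, 2) ≤ F₃(n, 3) ≤ 3^{-n} F₂(n, 2)`, the closed form of `F₂(n, 2)`, and
`log F₃(n, 3) / n² → log 2 - 1/2`. -/
theorem result :
    (∀ n : ℕ, (((n : ℝ) + 2) ^ n)⁻¹ * F2 n ≤ F3 n ∧ F3 n ≤ (1 / 3) ^ n * F2 n) ∧
    (∀ n : ℕ, 1 ≤ n → F2 n = 2 ^ (n * (n + 1)) * Real.pi ^ n
        * (∏ k ∈ Finset.range n, (k.factorial : ℝ) ^ 2) / (n.factorial : ℝ) ^ (n - 1)) ∧
    Filter.Tendsto (fun n : ℕ => Real.log (F3 n) / (n : ℝ) ^ 2) Filter.atTop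
      (nhds (Real.log 2 - 1 / 2)) := by
  have h1 : ∀ n : ℕ, (((n : ℝ) + 2) ^ n)⁻¹ * F2 n ≤ F3 n ∧ F3 n ≤ (1 / 3) ^ n * F2 n :=
    fun n => SqDist.main n
  have h2 : ∀ n : ℕ, 1 ≤ n → F2 n = 2 ^ (n * (n + 1)) * Real.pi ^ n
        * (∏ k ∈ Finset.range n, (k.factorial : ℝ) ^ 2) / (n.factorial : ℝ) ^ (n - 1) :=
    fun n hn => SqDist.F2_closed n hn
  refine ⟨h1, h2, ?_⟩
  refine SqDist.squeeze (fun n : ℕ => 2 ^ (n * (n + 1)) * Real.pi ^ n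
        * (∏ k ∈ Finset.range n, (k.factorial : ℝ) ^ 2) / (n.factorial : ℝ) ^ (n - 1)) F3 _
    (fun n _ => ?_) (fun n hn => ?_) (fun n hn => ?_) SqDist.asym_closed
  · have hp : 0 < ∏ k ∈ Finset.range n, (k.factorial : ℝ) ^ 2 :=
      Finset.prod_pos fun k _ => by positivity
    positivity
  · have h3 := (h1 n).1
    rw [h2 n hn] at h3
    exact h3
  · have h3 := (h1 n).2
    rw [h2 n hn] at h3
    exact h3

end Pool.Agent.Results.MP_9736d0_an.BallAsymptotics
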